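import Pool.Agent.P8H89.IX.Fin

/-!
# The same shift for both primes, taken from an arbitrary sparse set of shifts, for almost all `n` and almost all `k`

The question asks, for every `n > 2`, for a decomposition `n = k + m` with `p_k + 2` and `p_{p_m} + 2` prime. Here the
shift `2` is replaced by the shifts `h` of an ARBITRARY set `H` of at least `N / y` positive integers up to `N`
(`y = N ^ (c / log log N)`), the same `h` for both primes: for almost all `n` and almost all `k < n`, the weighted number
of the `h ∈ H` with `p_k + h` and `p_{p_m} + h` prime is the one predicted from the primes `≤ z`, `z` a power of `log N`.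

Proof: `Pool.Agent.P8H89.IX.fin_pair` (duality from the theorem of this run on arbitrary weights,
`Pool.Agent.P8H14.PL.main_QP`), applied to the identity on `H`, restricted to the pairs `(p_k, p_{p_m})`.

From the starting files: the sieve model (`Pool.Agent.H373R2.T7`), sums of divisor functions (`Pool.Agent.H398R2`), and
what `main_QP` uses. Of this run: `Pool.Agent.P8H14.PL`, `Pool.Agent.P8H13.PK` (the model and its correlations).
-/

set_option autoImplicit false

namespace Pool.Agent.Results.MP_04e9b2_nt.ArbitraryShiftSets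

open Finset

open Classical in
/-- The property `P` holds at most scales: the set of the positive integers `N` with the property `P` has upper
logarithmic density at least `1 - ε`. Precisely, for arbitrarily large `R` the sum of `1 / N` over the `N ≤ R`
without the property is at most `ε log R`. -/
def MostScales (ε : ℝ) (P : ℕ → Prop) : Prop :=
  ∀ R₀ : ℕ, ∃ R : ℕ, R₀ ≤ R ∧ ∑ N ∈ (Icc 1 R).filter (fun N => ¬ P N), (1 : ℝ) / N ≤ ε * Real.log R

/-- The saving `y = N ^ (c / log log N)`. -/
noncomputable def saving (c : ℝ) (N : ℕ) : ℝ := (N : ℝ) ^ (c / Real.log (Real.log N))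

/-- The `k`-th prime: `p 1 = 2`, `p 2 = 3`, and so on. -/
noncomputable def p (k : ℕ) : ℕ := Nat.nth Nat.Prime (k - 1)

open Classical in
/-- The weighted number of the shifts `h ∈ H` for which `p k + h` and `p (p m) + h` are prime: the sum of
`log (p k + h) log (p (p m) + h)` over these `h`. -/
noncomputable def shifts (k m : ℕ) (H : Finset ℕ) : ℝ :=
  ∑ h ∈ H.filter (fun h => (p k + h).Prime ∧ (p (p m) + h).Prime),
    Real.log (p k + h : ℕ) * Real.log (p (p m) + h : ℕ)

/-- `V(z)`, the product of `1 - 1 / q` over the primes `q ≤ z`. -/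
noncomputable def mertens (z : ℕ) : ℝ := ∏ q ∈ (Icc 1 z).filter Nat.Prime, (1 - 1 / (q : ℝ))

open Classical in
/-- The expected weighted number: `1 / V(z) ^ 2` times the number of the `h ∈ H` such that no prime `q ≤ z` divides
`p k + h` or `p (p m) + h`. -/
noncomputable def expected (z k m : ℕ) (H : Finset ℕ) : ℝ :=
  ((mertens z)⁻¹) ^ 2 * ((H.filter (fun h => ∀ q : ℕ, q.Prime → q ≤ z → ¬ q ∣ p k + h ∧ ¬ q ∣ p (p m) + h)).card : ℝ)

/-- The number of the `h ∈ H` with both numbers prime is the expected one, up to `|H| / log ^ U N`. -/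
def AsExpected (U N z : ℕ) (H : Finset ℕ) (k m : ℕ) : Prop :=
  |shifts k m H - expected z k m H| ≤ H.card / Real.log N ^ U

lemma saving_eq {c : ℝ} {N : ℕ} (hN : 1 ≤ N) : saving c N = Pool.Agent.P8H14.QP.sav c N := by
  unfold saving Pool.Agent.P8H14.QP.sav
  have hN0 : (0 : ℝ) < N := by exact_mod_cast hN
  rw [Real.rpow_def_of_pos hN0]
  congr 1
  ring

lemma p_ge (a : ℕ) : a + 1 ≤ p a := by
  have := Nat.add_two_le_nth_prime (a - 1)
  unfold p
  omega

lemma p_mono {a b : ℕ} (h : a ≤ b) : p a ≤ p b :=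
  Nat.nth_monotone Nat.infinite_setOfPred_prime (Nat.sub_le_sub_right h 1)

lemma p_inj {a b : ℕ} (ha : 0 < a) (hb : 0 < b) (h : p a = p b) : a = b := by
  have := Nat.nth_injective Nat.infinite_setOfPred_prime h
  omega

open Pool.Agent.P8H13.PK (th) in
open Pool.Agent.H373R2.T7 (lamz pz mem_pz Vz) in
lemma diff_eq (z k m : ℕ) (H : Finset ℕ) :
    shifts k m H - expected z k m H = ∑ x ∈ H, (th (p k + x) * th (p (p m) + x) -
      lamz z (p k + x) * lamz z (p (p m) + x)) := by
  classical
  rw [sum_sub_distrib]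
  congr 1
  · unfold shifts
    rw [sum_filter]
    apply sum_congr rfl
    intro x _
    unfold th
    by_cases h1 : (p k + x).Prime <;> by_cases h2 : (p (p m) + x).Prime <;> simp [h1, h2]
  · have hV : mertens z = Vz z := rfl
    unfold expected
    rw [hV, card_filter, Nat.cast_sum, mul_sum]
    apply sum_congr rfl
    intro x _
    unfold lamz
    have e : (∀ q : ℕ, q.Prime → q ≤ z → ¬ q ∣ p k + x ∧ ¬ q ∣ p (p m) + x) ↔
        (∀ q ∈ pz z, ¬ q ∣ p k + x) ∧ ∀ q ∈ pz z, ¬ q ∣ p (p m) + x := by
      constructor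
      · intro hq
        exact ⟨fun q hqz => (hq q (mem_pz.1 hqz).2 (mem_pz.1 hqz).1).1,
          fun q hqz => (hq q (mem_pz.1 hqz).2 (mem_pz.1 hqz).1).2⟩
      · intro hq q h1 h2
        exact ⟨hq.1 q (mem_pz.2 ⟨h2, h1⟩), hq.2 q (mem_pz.2 ⟨h2, h1⟩)⟩
    by_cases h1 : ∀ q ∈ pz z, ¬ q ∣ p k + x
    · by_cases h2 : ∀ q ∈ pz z, ¬ q ∣ p (p m) + x
      · rw [if_pos (e.2 ⟨h1, h2⟩), if_pos h1, if_pos h2]
        push_cast
        ring
      · rw [if_neg (fun hc => h2 (e.1 hc).2), if_neg h2]
        simp
    · rw [if_neg (fun hc => h1 (e.1 hc).1), if_neg h1]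
      simp

open Classical in
/-- Let `U` be fixed. There is a `B₀` such that for all `E` and `ε > 0` there is a `c > 0` such that at most scales `N`,
that is on a set of `N` of upper logarithmic density at least `1 - ε`, the following holds with
`y = N ^ (c / log log N)`: for all integers `z` with `log ^ B₀ N ≤ z ≤ log ^ E N` and for EVERY set `H` of shifts
`1 ≤ h ≤ N` with at least `N / y` elements

* for all but at most `N ^ 2 / log ^ (2 U) N` of the pairs `(k, m)` of positive integers with `p_k ≤ N`,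
  `p_{p_m} ≤ N`, and
* for all but at most `N / log ^ U N` of the `n` with `p_{p_n} ≤ N`, for all but at most `N / log ^ U N` of the
  decompositions `n = k + m`,

the number of the `h ∈ H` with `p_k + h` and `p_{p_m} + h` prime, counted with the weight
`log (p_k + h) log (p_{p_m} + h)`, differs from the expected one (`1 / V(z) ^ 2` times the number of the `h ∈ H` such that
both numbers have no prime factor `≤ z`) by at most `|H| / log ^ (2 U) N`. -/
theorem result (U : ℕ) : ∃ B₀ : ℕ, ∀ (E : ℕ) (ε : ℝ), 0 < ε → ∃ c : ℝ, 0 < c ∧ MostScales ε (fun N =>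
    ∀ z : ℕ, Real.log N ^ B₀ ≤ z → (z : ℝ) ≤ Real.log N ^ E →
      ∀ H : Finset ℕ, (∀ h ∈ H, 1 ≤ h ∧ h ≤ N) → (N : ℝ) ≤ saving c N * H.card →
        (((Icc 1 N ×ˢ Icc 1 N).filter (fun q => p q.1 ≤ N ∧ p (p q.2) ≤ N ∧
          ¬ AsExpected (2 * U) N z H q.1 q.2)).card : ℝ) ≤ N ^ 2 / Real.log N ^ (2 * U) ∧
        (((Icc 1 N).filter (fun n => p (p n) ≤ N ∧
          ¬ (((Ioo 0 n).filter (fun k => ¬ AsExpected (2 * U) N z H k (n - k))).card : ℝ) ≤
            N / Real.log N ^ U)).card : ℝ) ≤ N / Real.log N ^ U) := by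
  obtain ⟨B₀, h⟩ := Pool.Agent.P8H89.IX.fin_pair (2 * U)
  refine ⟨B₀, fun E ε hε => ?_⟩
  obtain ⟨c, hc, hmost⟩ := h E (ε / 2) (by positivity)
  refine ⟨c, hc, ?_⟩
  change Pool.Agent.TH823.PS.Most ε _
  refine Pool.Agent.TH823.PS.most_mono (N₁ := 3) hε hmost fun N hN3 hcon => ?_
  · have hN1 : 1 ≤ N := by omega
    have hN0 : (0 : ℝ) < N := by exact_mod_cast hN1
    have hL1 : 1 ≤ Real.log N := by
      rw [Real.le_log_iff_exp_le hN0]
      have h5 : (3 : ℝ) ≤ N := by exact_mod_cast hN3
      exact (Real.exp_one_lt_d9.le.trans (by norm_num)).trans h5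
    have hL0 : 0 < Real.log N := by linarith
    intro z hz1 hz2 H hH hHN
    rw [saving_eq hN1] at hHN
    have h4 := hcon z hz1 hz2 H id id (Set.injOn_id _) (Set.injOn_id _) (fun x hx => hH x hx) (fun x hx => hH x hx) hHN
    have h5 : (((Icc 1 N ×ˢ Icc 1 N).filter (fun q => p q.1 ≤ N ∧ p (p q.2) ≤ N ∧
        ¬ AsExpected (2 * U) N z H q.1 q.2)).card : ℝ) ≤ N ^ 2 / Real.log N ^ (2 * U) := by
      refine le_trans ?_ h4
      apply Nat.cast_le.2
      apply card_le_card_of_injOn (fun q => (p q.1, p (p q.2)))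
      · intro q hq
        simp only [coe_filter, mem_product, mem_Icc, Set.mem_setOf_eq] at hq ⊢
        have h6 := p_ge q.1
        have h7 := p_ge (p q.2)
        refine ⟨⟨⟨by omega, hq.2.1⟩, by omega, hq.2.2.1⟩, ?_⟩
        have h8 := hq.2.2.2
        unfold AsExpected at h8
        rw [diff_eq] at h8
        exact h8
      · intro q hq q' hq' hqq
        simp only [coe_filter, mem_product, mem_Icc, Set.mem_setOf_eq] at hq hq'
        simp only [Prod.mk.injEq] at hqq
        have h6 := p_inj (by omega) (by omega) hqq.1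
        have h7 := p_inj (by have := p_ge q.2; omega) (by have := p_ge q'.2; omega) hqq.2
        have h8 := p_inj (by omega) (by omega) h7
        exact Prod.ext h6 h8
    refine ⟨h5, ?_⟩
    set B := (Icc 1 N).filter (fun n => p (p n) ≤ N ∧
          ¬ (((Ioo 0 n).filter (fun k => ¬ AsExpected (2 * U) N z H k (n - k))).card : ℝ) ≤
            N / Real.log N ^ U) with hB
    have h6 : (B.card : ℝ) * (N / Real.log N ^ U) ≤ N ^ 2 / Real.log N ^ (2 * U) := by
      refine le_trans ?_ h5
      rw [← nsmul_eq_mul, ← sum_const]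
      refine (sum_le_sum (g := fun n => (((Ioo 0 n).filter (fun k => ¬ AsExpected (2 * U) N z H k (n - k))).card : ℝ))
        fun n hn => (not_le.1 (mem_filter.1 hn).2.2).le).trans ?_
      rw [← Nat.cast_sum, ← card_sigma]
      apply Nat.cast_le.2
      apply card_le_card_of_injOn (fun t : (Σ _ : ℕ, ℕ) => (t.2, t.1 - t.2))
      · rintro ⟨n, k⟩ ht
        simp only [coe_sigma, Set.mem_sigma_iff, coe_filter, mem_Ioo, Set.mem_setOf_eq, mem_product, mem_Icc,
          mem_coe, hB, mem_filter] at ht ⊢
        obtain ⟨⟨⟨hn1, hn2⟩, hn3, hn4⟩, ⟨hk1, hk2⟩, hk3⟩ := ht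
        have h7 := p_ge n
        have h8 := p_mono (show k ≤ p n by omega)
        have h9 := p_mono (p_mono (Nat.sub_le n k))
        refine ⟨⟨⟨by omega, by omega⟩, by omega, by omega⟩, h8.trans hn3, h9.trans hn3, hk3⟩
      · rintro ⟨n, k⟩ ht ⟨n', k'⟩ ht' hq
        simp only [coe_sigma, Set.mem_sigma_iff, coe_filter, mem_Ioo, Set.mem_setOf_eq, mem_coe, mem_filter]
          at ht ht'
        simp only [Prod.mk.injEq] at hq
        obtain ⟨h7, h8⟩ := hq
        have h9 := ht.2.1
        have h10 := ht'.2.1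
        have h11 : n = n' := by omega
        subst h11
        subst h7
        rfl
    have hpos : 0 < (N : ℝ) / Real.log N ^ U := by positivity
    rw [← le_div_iff₀ hpos] at h6
    refine h6.trans (le_of_eq ?_)
    have e : Real.log N ^ (2 * U) = Real.log N ^ U * Real.log N ^ U := by ring
    rw [e]
    field_simp

end Pool.Agent.Results.MP_04e9b2_nt.ArbitraryShiftSets
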