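import Pool.Agent.P8H6.SS.Main
import Pool.Agent.Y877.SxI

/-!
# Representations `n = k + m` with `p_k + h` and `p_{p_m} + h` both prime, for the same shift `h`
-/

set_option autoImplicit false

open Finset

namespace Pool.Agent.Results.MP_04e9b2_nt.SameShift

/-- the `k`-th prime, `p 1 = 2` -/
noncomputable def p (k : ℕ) : ℕ := Nat.nth Nat.Prime (k - 1)

/-- the product of `1 - 1/q` over the primes `q ≤ y` -/
noncomputable def V (y : ℕ) : ℝ := ∏ q ∈ (Icc 1 y).filter Nat.Prime, (1 - 1 / (q : ℝ))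

/-- the `k ∈ K` such that `p_k + h` and `p_{p_m} + h` are both prime, where `m = n - k` -/
noncomputable def Good (n : ℕ) (K : Finset ℕ) (h : ℕ) : Finset ℕ :=
  K.filter (fun k => (p k + h).Prime ∧ (p (p (n - k)) + h).Prime)

theorem p_lt {a b : ℕ} (ha : 0 < a) (hab : a < b) : p a < p b :=
  Nat.nth_strictMono Nat.infinite_setOfPred_prime (by omega)

theorem p_pos (a : ℕ) : 0 < p a := (Nat.prime_nth_prime _).pos

theorem pp_lt {a b : ℕ} (ha : 0 < a) (hab : a < b) : p (p a) < p (p b) := p_lt (p_pos a) (p_lt ha hab)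

theorem p_inj (n : ℕ) : Set.InjOn p (Ioo 0 n : Finset ℕ) := by
  intro a ha b hb hab
  rw [mem_coe, mem_Ioo] at ha hb
  rcases lt_trichotomy a b with h | h | h
  · exact absurd hab (p_lt ha.1 h).ne
  · exact h
  · exact absurd hab (p_lt hb.1 h).ne'

theorem pp_inj (n : ℕ) : Set.InjOn (fun k => p (p (n - k))) (Ioo 0 n : Finset ℕ) := by
  intro a ha b hb hab
  rw [mem_coe, mem_Ioo] at ha hb
  have hab' : p (p (n - a)) = p (p (n - b)) := hab
  rcases lt_trichotomy a b with h | h | h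
  · exact absurd hab' (pp_lt (by omega) (by omega)).ne'
  · exact h
  · exact absurd hab' (pp_lt (by omega) (by omega)).ne

theorem d_inj (n : ℕ) : Set.InjOn (fun k => ((p (p (n - k)) : ℕ) : ℤ) - (p k : ℕ)) (Ioo 0 n : Finset ℕ) := by
  intro a ha b hb hab
  rw [mem_coe, mem_Ioo] at ha hb
  have hab' : ((p (p (n - a)) : ℕ) : ℤ) - (p a : ℕ) = ((p (p (n - b)) : ℕ) : ℤ) - (p b : ℕ) := hab
  rcases lt_trichotomy a b with h | h | h
  · have h1 := p_lt ha.1 h
    have h2 := pp_lt (a := n - b) (b := n - a) (by omega) (by omega)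
    omega
  · exact h
  · have h1 := p_lt hb.1 h
    have h2 := pp_lt (a := n - a) (b := n - b) (by omega) (by omega)
    omega

/-- There is an absolute `c > 0` such that for all `A`, `C` and `0 < ε ≤ 1` there is `K₀` such that for every `K₁`, every
large `n`, every `y` with `K₀ ≤ y ≤ K₁ log log n`, with `P` the product of the primes `≤ y`, every window
`(g₀, g₀ + G]` with `P (g₀ + G) ≤ n` and `G ≥ n / (P log ^ C n)`, and every set `K` of at least `n / log ^ A n` integers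
`0 < k < n`: the mean over the shifts `h = P (g₀ + g)`, `g = 1, …, G`, of the number of `k ∈ K` for which `p_k + h` and
`p_{p_m} + h`, `m = n - k`, are both prime is at least `(1 - ε) #K / (V y log n) ^ 2`; and if `y ≥ K₀ log log n`, then for
at least `c G` of these shifts the number itself is at least `c #K / (V y log n) ^ 2`. -/
theorem result : ∃ c : ℝ, 0 < c ∧ ∀ (A C : ℕ) (ε : ℝ), 0 < ε → ε ≤ 1 → ∃ K₀ : ℕ, ∀ K₁ : ℕ, ∃ n₀ : ℕ, ∀ n : ℕ, n₀ ≤ n →
    ∀ y : ℕ, K₀ ≤ y → (y : ℝ) ≤ K₁ * Real.log (Real.log n) →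
    ∀ g₀ G : ℕ, primorial y * (g₀ + G) ≤ n → (n : ℝ) ≤ primorial y * G * Real.log n ^ C →
    ∀ K : Finset ℕ, K ⊆ Ioo 0 n → (n : ℝ) ≤ K.card * Real.log n ^ A →
      (1 - ε) * (K.card / (V y * Real.log n) ^ 2) * G ≤
        ∑ g ∈ Icc 1 G, ((Good n K (primorial y * (g₀ + g))).card : ℝ) ∧
      (K₀ * Real.log (Real.log n) ≤ y → c * G ≤ (((Icc 1 G).filter (fun g =>
        c * (K.card / (V y * Real.log n) ^ 2) ≤ ((Good n K (primorial y * (g₀ + g))).card : ℝ))).card : ℝ)) := by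
  obtain ⟨c, hc, hmain⟩ := Pool.Agent.P8H6.SS.same_shift
  refine ⟨c, hc, fun A C ε hε hε1 => ?_⟩
  obtain ⟨K₀, hK₀⟩ := hmain A C ε hε hε1
  refine ⟨K₀, fun K₁ => ?_⟩
  obtain ⟨n2, hn2⟩ := hK₀ K₁
  obtain ⟨n3, hn3⟩ := Pool.Agent.H373R2.T7.ev_L' 1
  obtain ⟨n4, hn4⟩ := Pool.Agent.Y877.SX.nth_le_log
  obtain ⟨n5, hn5⟩ := Pool.Agent.Y877.SX.nth_nth_le_log
  refine ⟨max n2 (max n3 (max n4 n5)), fun n hn y hy1 hy2 g₀ G hg1 hg2 K hK hKc => ?_⟩
  have b2 : n2 ≤ n := le_trans (le_max_left _ _) hn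
  have b3 : n3 ≤ n := le_trans (le_trans (le_max_left _ _) (le_max_right _ _)) hn
  have b4 : n4 ≤ n := le_trans (le_trans (le_trans (le_max_left _ _) (le_max_right _ _)) (le_max_right _ _)) hn
  have b5 : n5 ≤ n := le_trans (le_trans (le_trans (le_max_right _ _) (le_max_right _ _)) (le_max_right _ _)) hn
  have hL1 := hn3 n b3
  have f1 : ∀ k ∈ Ioo 0 n, (p k).Prime ∧ (p k : ℝ) ≤ n * Real.log n ^ 5 := by
    intro k hk
    rw [mem_Ioo] at hk
    refine ⟨Nat.prime_nth_prime _, (hn4 n b4 (k - 1) (by omega)).trans ?_⟩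
    apply mul_le_mul_of_nonneg_left _ (Nat.cast_nonneg _)
    exact pow_le_pow_right₀ hL1 (by norm_num)
  have f2 : ∀ k ∈ Ioo 0 n, (p (p (n - k))).Prime ∧ (p (p (n - k)) : ℝ) ≤ n * Real.log n ^ 5 := by
    intro k hk
    rw [mem_Ioo] at hk
    exact ⟨Nat.prime_nth_prime _, hn5 n b5 (n - k - 1) (by omega)⟩
  have hsub : (K : Set ℕ) ⊆ (Ioo 0 n : Finset ℕ) := by exact_mod_cast hK
  have h1 := hn2 n b2 y hy1 hy2 g₀ G hg1 hg2 K hKc p (fun k => p (p (n - k))) (fun k hk => f1 k (hK hk))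
    (fun k hk => f2 k (hK hk)) ((p_inj n).mono hsub) ((pp_inj n).mono hsub) ((d_inj n).mono hsub)
  have e : ∀ h : ℕ, Pool.Agent.P8H6.SS.RR K p (fun k => p (p (n - k))) h = (Good n K h).card := by
    intro h
    unfold Pool.Agent.P8H6.SS.RR Good
    congr
  simp only [e] at h1
  exact h1

end Pool.Agent.Results.MP_04e9b2_nt.SameShift
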