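import Pool.Agent.P8H6.SS.Sums4

/-!
# For almost all shifts `h` a positive proportion of the integers are `k + m` with `p_k + h` and `p_{p_m} + h` prime
-/

set_option autoImplicit false

open Finset

namespace Pool.Agent.Results.MP_04e9b2_nt.SameShiftSums

/-- the `k`-th prime, `p 1 = 2` -/
noncomputable def p (k : ℕ) : ℕ := Nat.nth Nat.Prime (k - 1)

/-- the integers `k + m` with `k ∈ U`, `m ∈ V` such that `p_k + h` and `p_{p_m} + h` are both prime -/
noncomputable def Sums (U V : Finset ℕ) (h : ℕ) : Finset ℕ :=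
  (U.filter (fun k => (p k + h).Prime) ×ˢ V.filter (fun m => (p (p m) + h).Prime)).image (fun x => x.1 + x.2)

theorem p_lt {a b : ℕ} (ha : 0 < a) (hab : a < b) : p a < p b :=
  Nat.nth_strictMono Nat.infinite_setOfPred_prime (by omega)

theorem p_pos (a : ℕ) : 0 < p a := (Nat.prime_nth_prime _).pos

theorem p_inj (n : ℕ) : Set.InjOn p (Icc 1 n : Finset ℕ) := by
  intro a ha b hb hab
  rw [mem_coe, mem_Icc] at ha hb
  rcases lt_trichotomy a b with h | h | h
  · exact absurd hab (p_lt ha.1 h).ne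
  · exact h
  · exact absurd hab (p_lt hb.1 h).ne'

theorem pp_inj (n : ℕ) : Set.InjOn (fun m => p (p m)) (Icc 1 n : Finset ℕ) := by
  intro a ha b hb hab
  rw [mem_coe, mem_Icc] at ha hb
  have hab' : p (p a) = p (p b) := hab
  rcases lt_trichotomy a b with h | h | h
  · exact absurd hab' (p_lt (p_pos a) (p_lt ha.1 h)).ne
  · exact h
  · exact absurd hab' (p_lt (p_pos b) (p_lt hb.1 h)).ne'

/-- There is an absolute `c > 0` such that for all `A`, `C` and `0 < ε ≤ 1` there is `K₀` such that for every `K₁`, every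
large `n`, every `y` between `K₀ log log n` and `K₁ log log n`, with `P` the product of the primes `≤ y`, every window
`(g₀, g₀ + G]` with `P (g₀ + G) ≤ n` and `G ≥ n / (P log ^ C n)`, and all sets `U`, `V` of at least `n / log ^ A n`
integers in `{1, …, n}`: for all but at most `ε G` of the shifts `h = P (g₀ + g)`, `g = 1, …, G`, at least
`c ε max (#U) (#V)` integers are `k + m` with `k ∈ U`, `m ∈ V` such that `p_k + h` and `p_{p_m} + h` are both prime. -/
theorem result : ∃ c : ℝ, 0 < c ∧ ∀ (A C : ℕ) (ε : ℝ), 0 < ε → ε ≤ 1 → ∃ K₀ : ℕ, ∀ K₁ : ℕ, ∃ n₀ : ℕ, ∀ n : ℕ, n₀ ≤ n →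
    ∀ y : ℕ, K₀ * Real.log (Real.log n) ≤ y → (y : ℝ) ≤ K₁ * Real.log (Real.log n) →
    ∀ g₀ G : ℕ, primorial y * (g₀ + G) ≤ n → (n : ℝ) ≤ primorial y * G * Real.log n ^ C →
    ∀ U V : Finset ℕ, U ⊆ Icc 1 n → V ⊆ Icc 1 n → (n : ℝ) ≤ U.card * Real.log n ^ A → (n : ℝ) ≤ V.card * Real.log n ^ A →
      (((Icc 1 G).filter (fun g => ((Sums U V (primorial y * (g₀ + g))).card : ℝ) <
        c * ε * max (U.card : ℝ) V.card)).card : ℝ) ≤ ε * G := by
  obtain ⟨c, hc, hmain⟩ := Pool.Agent.P8H6.SS.sums_thm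
  refine ⟨c, hc, fun A C ε hε hε1 => ?_⟩
  obtain ⟨K₀, hK₀⟩ := hmain A C ε hε hε1
  refine ⟨K₀, fun K₁ => ?_⟩
  obtain ⟨n2, hn2⟩ := hK₀ K₁
  obtain ⟨n3, hn3⟩ := Pool.Agent.H373R2.T7.ev_L' 1
  obtain ⟨n4, hn4⟩ := Pool.Agent.Y877.SX.nth_le_log
  obtain ⟨n5, hn5⟩ := Pool.Agent.Y877.SX.nth_nth_le_log
  refine ⟨max n2 (max n3 (max n4 n5)), fun n hn y hy1 hy2 g₀ G hg1 hg2 U V hU hV hUc hVc => ?_⟩
  have b2 : n2 ≤ n := le_trans (le_max_left _ _) hn
  have b3 : n3 ≤ n := le_trans (le_trans (le_max_left _ _) (le_max_right _ _)) hn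
  have b4 : n4 ≤ n := le_trans (le_trans (le_trans (le_max_left _ _) (le_max_right _ _)) (le_max_right _ _)) hn
  have b5 : n5 ≤ n := le_trans (le_trans (le_trans (le_max_right _ _) (le_max_right _ _)) (le_max_right _ _)) hn
  have hL1 := hn3 n b3
  have f1 : ∀ k ∈ Icc 1 n, (p k).Prime ∧ (p k : ℝ) ≤ n * Real.log n ^ 5 := by
    intro k hk
    rw [mem_Icc] at hk
    refine ⟨Nat.prime_nth_prime _, (hn4 n b4 (k - 1) (by omega)).trans ?_⟩
    apply mul_le_mul_of_nonneg_left _ (Nat.cast_nonneg _)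
    exact pow_le_pow_right₀ hL1 (by norm_num)
  have f2 : ∀ m ∈ Icc 1 n, (p (p m)).Prime ∧ (p (p m) : ℝ) ≤ n * Real.log n ^ 5 := by
    intro m hm
    rw [mem_Icc] at hm
    exact ⟨Nat.prime_nth_prime _, hn5 n b5 (m - 1) (by omega)⟩
  have hUs : (U : Set ℕ) ⊆ (Icc 1 n : Finset ℕ) := by exact_mod_cast hU
  have hVs : (V : Set ℕ) ⊆ (Icc 1 n : Finset ℕ) := by exact_mod_cast hV
  have hUn : U.card ≤ n := (card_le_card hU).trans (by simp)
  have hVn : V.card ≤ n := (card_le_card hV).trans (by simp)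
  exact hn2 n b2 y hy1 hy2 g₀ G hg1 hg2 U V hUc hVc hUn hVn p (fun m => p (p m)) (fun k hk => f1 k (hU hk))
    (fun k hk => f2 k (hV hk)) ((p_inj n).mono hUs) ((pp_inj n).mono hVs)

end Pool.Agent.Results.MP_04e9b2_nt.SameShiftSums
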