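import Pool.Agent.P8H89.IX.Fin

/-!
# Sparse sets of decompositions `n = k + m`: `p_k + h` and `p_{p_m} + h'` prime for almost all pairs of shifts

The question asks, for every `n > 2`, for a decomposition `n = k + m` with `p_k + 2` and `p_{p_m} + 2` prime. Here the
two shifts `2` are replaced by almost all pairs `(h, h')` of independent shifts, and the decompositions are taken from
an ARBITRARY set `K` of indices `k < n`, which may be sparser than any power of the logarithm (at least `N / y` elements,
`y = N ^ (c / log log N)`): the weighted number of the `k ∈ K` with both numbers prime is the one predicted from the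
primes `≤ z`, `z` a power of `log N`, up to `|K| / log ^ U N`, at most scales `N ≥ p_{p_n}`.

Proof (`Pool.Agent.P8H89.IX`). For every set `K`, every injective `f : K → [1, N]` and all coefficients `|ω| ≤ 1`:
`∑_{h ≤ N} |∑_{k ∈ K} ω_k (θ - λ_z)(f k + h)| ≤ |K| N / log ^ W N`, `λ_z` the sieve model of the primes. This follows by
duality from the theorem of this run on arbitrary weights (`Pool.Agent.P8H14.PL.main_QP`, helper14 and co-authors) as in
`Pool.Agent.P8H89.AS` (`MP_8be758_nt.ArbitraryArguments`), with coefficients. It is applied to `f k = p_k` with the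
coefficients `θ(p_{p_m} + h')`, for every `h'`, and to `p_{p_m}` with the coefficients `λ_z(p_k + h)`, for every `h`.

From the starting files: the sieve model (`Pool.Agent.H373R2.T7`), sums of divisor functions (`Pool.Agent.H398R2`), and
what `main_QP` uses. Of this run: `Pool.Agent.P8H14.PL`, `Pool.Agent.P8H13.PK` (the model and its correlations).
-/

set_option autoImplicit false

namespace Pool.Agent.Results.MP_04e9b2_nt.SparseIndexSets

open Finset

open Classical in
/-- The property `P` holds at most scales: the set of the positive integers `N` with the property `P` has upper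
logarithmic density at least `1 - ε`. Precisely, for arbitrarily large `R` the sum of `1 / N` over the `N ≤ R`
without the property is at most `ε log R`. -/
def MostScales (ε : ℝ) (P : ℕ → Prop) : Prop :=
  ∀ R₀ : ℕ, ∃ R : ℕ, R₀ ≤ R ∧ ∑ N ∈ (Icc 1 R).filter (fun N => ¬ P N), (1 : ℝ) / N ≤ ε * Real.log R

/-- The saving `y = N ^ (c / log log N)`. -/
noncomputable def saving (c : ℝ) (N : ℕ) : ℝ := (N : ℝ) ^ (c / Real.log (Real.log N))

/-- The `k`-th prime: `p 1 = 2`, `p 2 = 3`, and so on. -/
noncomputable def p (k : ℕ) : ℕ := Nat.nth Nat.Prime (k - 1)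

open Classical in
/-- The weighted number of the decompositions: the sum of `log (p k + h) log (p (p (n - k)) + h')` over the `k ∈ K`
for which `p k + h` and `p (p (n - k)) + h'` are prime. -/
noncomputable def pairs (n : ℕ) (K : Finset ℕ) (h h' : ℕ) : ℝ :=
  ∑ k ∈ K.filter (fun k => (p k + h).Prime ∧ (p (p (n - k)) + h').Prime),
    Real.log (p k + h : ℕ) * Real.log (p (p (n - k)) + h' : ℕ)

/-- `V(z)`, the product of `1 - 1 / q` over the primes `q ≤ z`. -/
noncomputable def mertens (z : ℕ) : ℝ := ∏ q ∈ (Icc 1 z).filter Nat.Prime, (1 - 1 / (q : ℝ))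

open Classical in
/-- The expected weighted number: `1 / V(z) ^ 2` times the number of the `k ∈ K` such that no prime `q ≤ z` divides
`p k + h` or `p (p (n - k)) + h'`. -/
noncomputable def expected (z n : ℕ) (K : Finset ℕ) (h h' : ℕ) : ℝ :=
  ((mertens z)⁻¹) ^ 2 * ((K.filter (fun k => ∀ q : ℕ, q.Prime → q ≤ z → ¬ q ∣ p k + h ∧
    ¬ q ∣ p (p (n - k)) + h')).card : ℝ)

lemma saving_eq {c : ℝ} {N : ℕ} (hN : 1 ≤ N) : saving c N = Pool.Agent.P8H14.QP.sav c N := by
  unfold saving Pool.Agent.P8H14.QP.sav
  have hN0 : (0 : ℝ) < N := by exact_mod_cast hN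
  rw [Real.rpow_def_of_pos hN0]
  congr 1
  ring

lemma p_mono {a b : ℕ} (h : a ≤ b) : p a ≤ p b :=
  Nat.nth_monotone Nat.infinite_setOf_prime (Nat.sub_le_sub_right h 1)

lemma p_ge (a : ℕ) : a + 1 ≤ p a := by
  have := Nat.add_two_le_nth_prime (a - 1)
  unfold p
  omega

lemma p_inj {a b : ℕ} (ha : 0 < a) (hb : 0 < b) (h : p a = p b) : a = b := by
  have := Nat.nth_injective Nat.infinite_setOf_prime h
  omega

open Pool.Agent.P8H13.PK (th) in
open Pool.Agent.H373R2.T7 (lamz pz mem_pz Vz) in
lemma diff_eq (z n : ℕ) (K : Finset ℕ) (h h' : ℕ) :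
    pairs n K h h' - expected z n K h h' = ∑ x ∈ K, (th (h + p x) * th (h' + p (p (n - x))) -
      lamz z (h + p x) * lamz z (h' + p (p (n - x)))) := by
  classical
  rw [sum_sub_distrib]
  congr 1
  · unfold pairs
    rw [sum_filter]
    apply sum_congr rfl
    intro x _
    unfold th
    rw [add_comm h, add_comm h']
    by_cases h1 : (p x + h).Prime <;> by_cases h2 : (p (p (n - x)) + h').Prime <;> simp [h1, h2]
  · have hV : mertens z = Vz z := rfl
    unfold expected
    rw [hV, card_filter, Nat.cast_sum, mul_sum]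
    apply sum_congr rfl
    intro x _
    unfold lamz
    have e : (∀ q : ℕ, q.Prime → q ≤ z → ¬ q ∣ p x + h ∧ ¬ q ∣ p (p (n - x)) + h') ↔
        (∀ q ∈ pz z, ¬ q ∣ h + p x) ∧ ∀ q ∈ pz z, ¬ q ∣ h' + p (p (n - x)) := by
      rw [add_comm h, add_comm h']
      constructor
      · intro hq
        exact ⟨fun q hqz => (hq q (mem_pz.1 hqz).2 (mem_pz.1 hqz).1).1,
          fun q hqz => (hq q (mem_pz.1 hqz).2 (mem_pz.1 hqz).1).2⟩
      · intro hq q h1 h2
        exact ⟨hq.1 q (mem_pz.2 ⟨h2, h1⟩), hq.2 q (mem_pz.2 ⟨h2, h1⟩)⟩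
    by_cases h1 : ∀ q ∈ pz z, ¬ q ∣ h + p x
    · by_cases h2 : ∀ q ∈ pz z, ¬ q ∣ h' + p (p (n - x))
      · rw [if_pos (e.2 ⟨h1, h2⟩), if_pos h1, if_pos h2]
        push_cast
        ring
      · rw [if_neg (fun hc => h2 (e.1 hc).2), if_neg h2]
        simp
    · rw [if_neg (fun hc => h1 (e.1 hc).1), if_neg h1]
      simp

open Classical in
/-- Let `U` be fixed. There is a `B₀` such that for all `E` and `ε > 0` there is a `c > 0` such that at most scales `N`,
that is on a set of `N` of upper logarithmic density at least `1 - ε`, the following holds with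
`y = N ^ (c / log log N)`: for all integers `z` with `log ^ B₀ N ≤ z ≤ log ^ E N`, all `n` with `p_{p_n} ≤ N` and for
EVERY set `K` of integers `k` with `0 < k < n` and at least `N / y` elements, all but at most `N ^ 2 / log ^ U N` of the
pairs `(h, h')` of shifts `1 ≤ h, h' ≤ N` are such that the number of the `k ∈ K` with `p_k + h` and `p_{p_{n - k}} + h'`
prime, counted with the weight `log (p_k + h) log (p_{p_{n - k}} + h')`, differs from the expected one (`1 / V(z) ^ 2`
times the number of the `k ∈ K` such that both numbers have no prime factor `≤ z`) by at most `|K| / log ^ U N`. -/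
theorem result (U : ℕ) : ∃ B₀ : ℕ, ∀ (E : ℕ) (ε : ℝ), 0 < ε → ∃ c : ℝ, 0 < c ∧ MostScales ε (fun N =>
    ∀ z : ℕ, Real.log N ^ B₀ ≤ z → (z : ℝ) ≤ Real.log N ^ E → ∀ n : ℕ, p (p n) ≤ N →
      ∀ K : Finset ℕ, (∀ k ∈ K, 0 < k ∧ k < n) → (N : ℝ) ≤ saving c N * K.card →
        (((Icc 1 N ×ˢ Icc 1 N).filter (fun q =>
          ¬ |pairs n K q.1 q.2 - expected z n K q.1 q.2| ≤ K.card / Real.log N ^ U)).card : ℝ) ≤
          N ^ 2 / Real.log N ^ U) := by
  obtain ⟨B₀, h⟩ := Pool.Agent.P8H89.IX.fin_pair U
  refine ⟨B₀, fun E ε hε => ?_⟩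
  obtain ⟨c, hc, hmost⟩ := h E ε hε
  refine ⟨c, hc, ?_⟩
  intro R₀
  obtain ⟨R, hR, h3⟩ := hmost R₀
  refine ⟨R, hR, le_trans ?_ h3⟩
  apply sum_le_sum_of_subset_of_nonneg
  · intro N hN
    simp only [mem_filter] at hN ⊢
    refine ⟨hN.1, fun hcon => hN.2 ?_⟩
    have hN1 : 1 ≤ N := (mem_Icc.1 hN.1).1
    intro z hz1 hz2 n hn K hK hKN
    rw [saving_eq hN1] at hKN
    have h4 := hcon z hz1 hz2 K p (fun k => p (p (n - k))) (by
        intro a ha b hb hab
        exact p_inj (hK a ha).1 (hK b hb).1 hab) (by
        intro a ha b hb hab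
        have h5 := hK a ha
        have h6 := hK b hb
        have h7 : p (n - a) = p (n - b) := p_inj (by have := p_ge (n - a); omega) (by have := p_ge (n - b); omega) hab
        have h8 := p_inj (by omega) (by omega) h7
        omega) (by
        intro k hk
        have h5 := hK k hk
        have h6 := p_ge k
        have h7 := p_ge n
        have h8 := p_mono (show k ≤ p n by omega)
        omega) (by
        intro k hk
        have h5 := p_mono (p_mono (Nat.sub_le n k))
        have h6 := p_ge (p (n - k))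
        exact ⟨by omega, h5.trans hn⟩) hKN
    refine le_trans ?_ h4
    apply Nat.cast_le.2
    apply card_le_card
    intro q hq
    rw [mem_filter] at hq ⊢
    refine ⟨hq.1, ?_⟩
    rw [← diff_eq]
    exact hq.2
  · intro _ _ _
    positivity

end Pool.Agent.Results.MP_04e9b2_nt.SparseIndexSets
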